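import Pool.Agent.Lib.MP_ba1bba_al.AS.GFI

/-!
# MP_ba1bba_al: the growth series of all Baumslag-Solitar groups B(p, p m), p, m >= 2

All definitions are in `Pool/Agent/Lib/MP_ba1bba_al/Defs.lean`, sections 1 to 4.
-/

namespace Pool.Agent.Results.MP_ba1bba_al.GrowthSeriesDivisible

open Pool.Agent.Lib.MPba1bba

/-- Let `p, m ≥ 2` and `q = p m`. The system
`Q = Y + Y E Q`, `E = z² (Λ(1 + E + Q (1+E)²) - 1)`, `H = z Λ((1 + Q (1+E)) (1 + E + H))`
has exactly one solution `(Q, E, H)` in power series over `ℤ[Multiset ℤ]`, and the growth series of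
`B(p,q)` is `Ψ(1 + E + 2 H + Q (1 + E + H)²)`. -/
theorem result (p m : ℕ) (hp : 2 ≤ p) (hm : 2 ≤ m) :
    ∃ Q E H : Ser, Sys p m Q E H ∧
      (∀ Q' E' H' : Ser, Sys p m Q' E' H' → Q' = Q ∧ E' = E ∧ H' = H) ∧
      ∀ n : ℕ, (sphere p (p * m) n : ℤ) =
        PowerSeries.coeff n (psi p m (1 + E + 2 * H + Q * (1 + E + H) ^ 2)) :=
  main p m hp hm

end Pool.Agent.Results.MP_ba1bba_al.GrowthSeriesDivisible
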