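import Pool.Agent.Lib.MP_ba1bba_al.LG.Main

/-!
# MP_ba1bba_al: growth rate and growth series of B(p, p m) for large m

Definitions: `Pool/Agent/Lib/MP_ba1bba_al/Defs.lean`, section 1 (the group, word length, spheres);
`Pool/Agent/Lib/MP_ba1bba_al/LR/Defs.lean`, section 1 (`gs`, `cr`, `eqF`) and
`Pool/Agent/Lib/MP_ba1bba_al/LC/Defs.lean`, section 1 (power series with integer coefficients).
-/

namespace Pool.Agent.Results.MP_ba1bba_al.LimitRate

open Pool.Agent.Lib.MPba1bba Pool.Agent.Lib.MPba1bba.LR Pool.Agent.Lib.MPba1bba.LC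

/-- Let `p ≥ 2` and let `σ(n)` be the number of elements of length `n` of
`B(p, p m) = ⟨a, t | t a^p t⁻¹ = a^(p m)⟩`.
The equation `F_p(x) = 2` has exactly one solution `x` in `(0, 1/2)` (`1/x = 1 + √3` for `p = 2`), the
equation `e + X² = X² (1 + e) M(e)` has exactly one solution `e` in `ℤ⟦X⟧`, and the explicit series
`S = (1 - X²)/(1 - X² ℓ) · ((2 g - 1 - e) ℓ + g² N(e))` is algebraic over `ℤ[X]`. For all `m ≥ 2` and
`n ≤ p (m - 1)/2` the number `σ(n)` is the coefficient of `Xⁿ` in `S`; the growth rate of the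
coefficients of `S` is `1/x`; and there are `C` and `κ < 1` such that for all `m ≥ 2` the growth rate
`ω = lim (∑_{k ≤ n} σ(k))^(1/n)` of `B(p, p m)` satisfies `1/x - C κ^m ≤ ω < 1/x`. -/
theorem result (p : ℕ) (hp : 2 ≤ p) :
    ∃ (x : ℝ) (e : PowerSeries ℤ),
      (0 < x ∧ x < 1 / 2 ∧ eqF p x = 2 ∧ (∀ y : ℝ, 0 < y → y < 1 / 2 → eqF p y = 2 → y = x) ∧
        (p = 2 → 1 / x = 1 + √3)) ∧
      (e + PowerSeries.X ^ 2 = PowerSeries.X ^ 2 * ((1 + e) * Mz p e) ∧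
        ∀ e' : PowerSeries ℤ,
          e' + PowerSeries.X ^ 2 = PowerSeries.X ^ 2 * ((1 + e') * Mz p e') → e' = e) ∧
      IsAlgebraic (Polynomial ℤ) (Sz p e) ∧
      (∀ m n : ℕ, 2 ≤ m → 2 * n ≤ p * (m - 1) →
        (sphere p (p * m) n : ℤ) = PowerSeries.coeff n (Sz p e)) ∧
      Filter.Tendsto
        (fun n : ℕ =>
          (∑ k ∈ Finset.range (n + 1), ((PowerSeries.coeff k (Sz p e) : ℤ) : ℝ)) ^ (1 / (n : ℝ)))
        Filter.atTop (nhds (1 / x)) ∧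
      ∃ C κ : ℝ, 0 < κ ∧ κ < 1 ∧ ∀ m : ℕ, 2 ≤ m → ∃ ω : ℝ,
        Filter.Tendsto
          (fun n : ℕ => (∑ k ∈ Finset.range (n + 1), (sphere p (p * m) k : ℝ)) ^ (1 / (n : ℝ)))
          Filter.atTop (nhds ω) ∧
        1 / x - C * κ ^ m ≤ ω ∧ ω < 1 / x :=
  LG.mainLG p hp

end Pool.Agent.Results.MP_ba1bba_al.LimitRate
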