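import Pool.Agent.Lib.MP_ba1bba_al.AS.Main

/-!
# MP_ba1bba_al: growth rate and asymptotics of the sphere sizes of B(p, p m), p, m >= 2

Definitions: `Pool/Agent/Lib/MP_ba1bba_al/Defs.lean`, sections 1 to 4, and
`Pool/Agent/Lib/MP_ba1bba_al/AS/Defs.lean`, section 1.
-/

namespace Pool.Agent.Results.MP_ba1bba_al.SphereAsymptotics

open Pool.Agent.Lib.MPba1bba Pool.Agent.Lib.MPba1bba.AS

/-- Let `p, m ≥ 2` and `q = p m`, let `(Q, E, H)` be the unique solution of the system `Sys p m` and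
`V` the unique solution of `V = z Λ((1 + Q (1 + E)) (1 + V - V_∅))`, and write `V_∅ = ∑ b_n zⁿ`. Then
all `b_n ≥ 0`, the equation `∑ b_n xⁿ = 1` has exactly one positive solution `z₀`, `z₀ < 1`, the series
converges at some `r > z₀`, the sphere sizes of `B(p,q)` satisfy
`σ(n) = (C n + C') z₀⁻ⁿ + O(r⁻ⁿ)` with `C > 0`, and the exponential growth rate of `B(p,q)` is `1/z₀`. -/
theorem result (p m : ℕ) (hp : 2 ≤ p) (hm : 2 ≤ m) :
    ∃ Q E H V : Ser, Sys p m Q E H ∧ VEq p m Q E V ∧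
      (∀ Q' E' H' V' : Ser, Sys p m Q' E' H' → VEq p m Q' E' V' →
        Q' = Q ∧ E' = E ∧ H' = H ∧ V' = V) ∧
      (∀ n, 0 ≤ PowerSeries.coeff n (cf0 V)) ∧
      ∃ z₀ r C C' K : ℝ, 0 < z₀ ∧ z₀ < 1 ∧ z₀ < r ∧ 0 < C ∧
        HasSum (fun n => ((PowerSeries.coeff n (cf0 V) : ℤ) : ℝ) * z₀ ^ n) 1 ∧
        (∀ x : ℝ, 0 < x →
          HasSum (fun n => ((PowerSeries.coeff n (cf0 V) : ℤ) : ℝ) * x ^ n) 1 → x = z₀) ∧
        Summable (fun n => ((PowerSeries.coeff n (cf0 V) : ℤ) : ℝ) * r ^ n) ∧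
        (∀ n : ℕ, |(sphere p (p * m) n : ℝ) - (C * n + C') * (z₀⁻¹) ^ n| ≤ K * (r⁻¹) ^ n) ∧
        Filter.Tendsto
          (fun n : ℕ => (∑ k ∈ Finset.range (n + 1), (sphere p (p * m) k : ℝ)) ^ (1 / (n : ℝ)))
          Filter.atTop (nhds (1 / z₀)) :=
  mainAS p m hp hm

end Pool.Agent.Results.MP_ba1bba_al.SphereAsymptotics
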