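import Pool.Agent.Lib.MP_ba1bba_al.TM.Main

/-!
# MP_ba1bba_al: the growth series of the Baumslag-Solitar groups B(2,4n) are transcendental

The definition of the group, of the word length and of `sphere` is section 1 of
`Pool/Agent/Lib/MP_ba1bba_al/Defs.lean`; the 2-kernel, the diagonal and `IsRational` are defined in
`Pool/Agent/Lib/MP_ba1bba_al/TR/Diag.lean`.
-/

namespace Pool.Agent.Results.MP_ba1bba_al.TranscendentalFamily

open Pool.Agent.Lib.MPba1bba

/-- Let `n ≥ 1` and let `σ(k)` be the sphere sizes of `B(2,4n) = ⟨a, t | t a² t⁻¹ = a^(4n)⟩` with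
respect to `a, t`. If an integer sequence `T` has a generating function that is algebraic over `ℚ(z)`,
or is the diagonal of a rational power series over `ℤ` in any number of variables, or is `2`-automatic
modulo `4`, then `T(k)` is not congruent to `σ(k)` modulo `4` for some `k`. In particular (`T = σ`)
the growth series of `B(2,4n)` is transcendental over `ℚ(z)`, for every `n ≥ 1`. -/
theorem result (n : ℕ) (hn : 1 ≤ n) (T : ℕ → ℤ)
    (hT : IsAlgebraic (Polynomial ℚ) (PowerSeries.mk fun k => (T k : ℚ)) ∨
      (∃ (d : ℕ) (F : MvPowerSeries (Fin d) ℤ), TR.IsRational F ∧ ∀ k, TR.diag F k = T k) ∨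
      (TR.ker2 fun k => (T k : ZMod 4)).Finite) :
    ∃ k, (T k : ZMod 4) ≠ (sphere 2 (4 * n) k : ZMod 4) :=
  TM.main n hn T hT

end Pool.Agent.Results.MP_ba1bba_al.TranscendentalFamily
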